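import Pool.Agent.LE.StmtsQE
import Pool.Agent.Helper81_LSP.CLPa
import Pool.Agent.Helper81_LSP.CRG
import Pool.Agent.Helper54_LIR.CPEb

/-!
# CPX: numbers
-/

set_option autoImplicit false

open MeasureTheory ProbabilityTheory Function Filter

open scoped ENNReal BigOperators Topology NNReal

noncomputable section

namespace Pool.Agent.LE.QD.H54

/-- powers against the exponential function -/
theorem ev_pow (C : ℝ) (k : ℕ) {α : ℝ} (hα : 0 < α) :
    ∀ᶠ l : ℝ in atTop, C * l ^ k ≤ Real.exp (α * l) := by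
  have h := isLittleO_pow_exp_pos_mul_atTop (k := k) hα
  have hC : 0 < 1 / (|C| + 1) := by positivity
  filter_upwards [h.bound hC, eventually_ge_atTop (0 : ℝ)] with l hl hl0
  rw [Real.norm_eq_abs, Real.norm_eq_abs, abs_of_nonneg (by positivity),
    abs_of_pos (Real.exp_pos _)] at hl
  have h1 : (|C| + 1) * l ^ k ≤ Real.exp (α * l) := by
    calc (|C| + 1) * l ^ k ≤ (|C| + 1) * (1 / (|C| + 1) * Real.exp (α * l)) := by gcongr
      _ = Real.exp (α * l) := by field_simp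
  have h2 : C * l ^ k ≤ (|C| + 1) * l ^ k := by
    have := le_abs_self C
    gcongr
    linarith
  exact h2.trans h1

/-- all the conditions on `l` -/
theorem nums (d : ℕ) (hd : 3 ≤ d) (Q K' D c A lm : ℝ) (hc : 0 < c) :
    ∃ l₀ : ℝ, 3 ≤ l₀ ∧ ∀ l : ℝ, l₀ ≤ l → lm ≤ l ∧
      Q * l ^ 2 ≤ Real.exp (14 / 15 * l) ∧ 2 * K' ≤ Real.exp l ∧
      2 ^ (d + 2) ≤ Real.exp (d / 31 * l) ∧
      D * l ^ (4 * d) * Real.exp (-(1 / 915 * l)) + D * Real.exp (-l) < c ∧
      (A + 3 * d + 3) * l ≤ Real.exp l := by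
  have hd0 : (0 : ℝ) < d / 31 := by
    have : (0 : ℝ) < d := by exact_mod_cast (by omega : 0 < d)
    positivity
  have h1 := ev_pow Q 2 (α := 14 / 15) (by norm_num)
  have h2 := ev_pow (2 * K') 0 (α := 1) (by norm_num)
  have h3 := ev_pow (2 ^ (d + 2)) 0 hd0
  have h4 := ev_pow (4 * D / c) (4 * d) (α := 1 / 915) (by norm_num)
  have h5 := ev_pow (4 * D / c) 0 (α := 1) (by norm_num)
  have h6 := ev_pow (A + 3 * d + 3) 1 (α := 1) (by norm_num)
  have h := h1.and (h2.and (h3.and (h4.and (h5.and (h6.and (eventually_ge_atTop lm))))))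
  obtain ⟨l₁, hl₁⟩ := eventually_atTop.1 h
  refine ⟨max l₁ 3, le_max_right _ _, fun l hl => ?_⟩
  obtain ⟨g1, g2, g3, g4, g5, g6, g7⟩ := hl₁ l ((le_max_left _ _).trans hl)
  simp only [pow_zero, mul_one, one_mul, pow_one] at g2 g3 g5 g6
  refine ⟨g7, g1, g2, g3, ?_, g6⟩
  have e1 : D * l ^ (4 * d) * Real.exp (-(1 / 915 * l)) ≤ c / 4 := by
    have h7 : D * l ^ (4 * d) = 4 * D / c * l ^ (4 * d) * (c / 4) := by field_simp
    rw [h7]
    calc 4 * D / c * l ^ (4 * d) * (c / 4) * Real.exp (-(1 / 915 * l)) ≤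
          Real.exp (1 / 915 * l) * (c / 4) * Real.exp (-(1 / 915 * l)) := by gcongr
      _ = c / 4 := by
          rw [mul_comm (Real.exp (1 / 915 * l)), mul_assoc, ← Real.exp_add]
          simp
  have e2 : D * Real.exp (-l) ≤ c / 4 := by
    have h7 : D = 4 * D / c * (c / 4) := by field_simp
    rw [h7]
    calc 4 * D / c * (c / 4) * Real.exp (-l) ≤ Real.exp l * (c / 4) * Real.exp (-l) := by gcongr
      _ = c / 4 := by
          rw [mul_comm (Real.exp l), mul_assoc, ← Real.exp_add]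
          simp
  linarith

end Pool.Agent.LE.QD.H54
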