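import Pool.Agent.Helper54_LQD.CPXa

/-!
# CPX: scales
-/

set_option autoImplicit false

open MeasureTheory ProbabilityTheory Function Filter

open scoped ENNReal BigOperators Topology NNReal

noncomputable section

namespace Pool.Agent.LE.QD.H54

theorem ceil_x {x : ℝ} (hx : 1 ≤ x) : ∃ n : ℕ, 1 ≤ n ∧ x ≤ n ∧ (n : ℝ) ≤ 2 * x := by
  refine ⟨⌈x⌉₊, ?_, Nat.le_ceil _, ?_⟩
  · exact Nat.one_le_iff_ne_zero.2 (Nat.ceil_pos.2 (by linarith)).ne'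
  · have := Nat.ceil_lt_add_one (by linarith : 0 ≤ x)
    linarith

theorem floor_x {x : ℝ} (hx : 1 ≤ x) : ∃ n : ℕ, 1 ≤ n ∧ (n : ℝ) ≤ x ∧ x ≤ 2 * n := by
  have h1 : 1 ≤ ⌊x⌋₊ := by
    rw [Nat.one_le_floor_iff]
    exact hx
  have h1' : (1 : ℝ) ≤ ⌊x⌋₊ := by exact_mod_cast h1
  refine ⟨⌊x⌋₊, h1, Nat.floor_le (by linarith), ?_⟩
  have := Nat.lt_floor_add_one x
  linarith

/-- the scales -/
theorem scales {d : ℕ} {l C₁ K₁ Q : ℝ} {ρ₁ : ℕ} (hd : 3 ≤ d) (hl : 3 ≤ l) (hC₁ : 1 ≤ C₁)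
    (hK₁ : 1 ≤ K₁) (hρ₁ : (ρ₁ : ℝ) ≤ K₁ * Real.exp (2 * l)) (hρ1 : 1 ≤ ρ₁)
    (hQ : Q = 6 * d * (2 * C₁ + K₁) + 2 * K₁ + 7) (hQl : Q * l ^ 2 ≤ Real.exp (14 / 15 * l)) :
    ∃ R₁ J₂ R : ℕ, C₁ * l * Real.exp (31 / 15 * l) ≤ R₁ ∧ R = J₂ * (R₁ + ρ₁) + ρ₁ ∧
      (J₂ : ℝ) ≤ 3 * d * l ∧ (∀ N₀ : ℕ, (N₀ : ℝ) ≤ Real.exp (d / 31 * l) → N₀ < 2 ^ J₂) ∧
      1 ≤ R ∧ ρ₁ ≤ R ∧ (2 * (R : ℝ) + 7) ≤ Real.exp (3 * l) := by
  have hd0 : (3 : ℝ) ≤ d := by exact_mod_cast hd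
  have he1 : 1 ≤ Real.exp (31 / 15 * l) := Real.one_le_exp (by linarith)
  have hx1 : 1 ≤ C₁ * l * Real.exp (31 / 15 * l) := by
    have h1 : 1 ≤ C₁ * l := by nlinarith
    nlinarith
  obtain ⟨R₁, hR₁1, hR₁l, hR₁u⟩ := ceil_x hx1
  have hdl : 1 ≤ 3 / 2 * (d : ℝ) * l := by nlinarith
  obtain ⟨J₂, hJ1, hJl, hJu⟩ := ceil_x hdl
  refine ⟨R₁, J₂, J₂ * (R₁ + ρ₁) + ρ₁, hR₁l, rfl, by linarith, ?_, by omega, by omega, ?_⟩
  · intro N₀ hN₀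
    have h1 : (N₀ : ℝ) < 2 ^ J₂ := by
      calc (N₀ : ℝ) ≤ Real.exp (d / 31 * l) := hN₀
        _ < Real.exp (J₂ * Real.log 2) := by
            refine Real.exp_lt_exp.2 ?_
            have h7 := Real.log_two_gt_d9
            have h8 : 3 / 2 * d * l * Real.log 2 ≤ J₂ * Real.log 2 := by gcongr
            have h9 : 0 < (d : ℝ) * l := by positivity
            nlinarith
        _ = 2 ^ J₂ := by rw [Real.exp_nat_mul, Real.exp_log (by norm_num)]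
    exact_mod_cast h1
  · push_cast
    obtain ⟨e, he⟩ : ∃ e : ℝ, e = Real.exp (31 / 15 * l) := ⟨_, rfl⟩
    rw [← he] at hR₁u he1
    have h2 : Real.exp (2 * l) ≤ e := by
      rw [he]
      exact Real.exp_le_exp.2 (by linarith)
    have hρ' : (ρ₁ : ℝ) ≤ K₁ * e := hρ₁.trans (by gcongr)
    have hJ' : (J₂ : ℝ) ≤ 3 * d * l := by linarith
    have h3 : (J₂ : ℝ) * (R₁ + ρ₁) ≤ 3 * d * l * (2 * (C₁ * l * e) + K₁ * e) := by gcongr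
    have h4 : 2 * ((J₂ : ℝ) * (R₁ + ρ₁) + ρ₁) + 7 ≤ Q * l ^ 2 * e := by
      have h5 : 3 * (d : ℝ) * l * (2 * (C₁ * l * e) + K₁ * e) ≤
          3 * d * (2 * C₁ + K₁) * (l ^ 2 * e) := by
        have h6 : 3 * (d : ℝ) * l * (K₁ * e) ≤ 3 * d * K₁ * (l ^ 2 * e) := by
          have h7 : l ≤ l ^ 2 := by nlinarith
          calc 3 * (d : ℝ) * l * (K₁ * e) = 3 * d * K₁ * (l * e) := by ring
            _ ≤ 3 * d * K₁ * (l ^ 2 * e) := by gcongr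
        nlinarith
      have h8 : K₁ * e ≤ K₁ * (l ^ 2 * e) := by
        have h9 : 1 ≤ l ^ 2 := by nlinarith
        have h10 : e ≤ l ^ 2 * e := by nlinarith
        gcongr
      have h11 : (7 : ℝ) ≤ 7 * (l ^ 2 * e) := by
        have h9 : 1 ≤ l ^ 2 := by nlinarith
        nlinarith
      rw [hQ]
      nlinarith
    refine h4.trans ?_
    calc Q * l ^ 2 * e ≤ Real.exp (14 / 15 * l) * e := by gcongr
      _ = Real.exp (3 * l) := by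
          rw [he, ← Real.exp_add]
          ring_nf

open Pool.Agent.Anderson hiding box mem_box card_box
open Pool.Agent.Loc Pool.Agent.Mob Pool.Agent.Helper54.Bal
  Pool.Agent.Helper96.EXP Pool.Agent.BED
open Pool.Agent.LE.MN Pool.Agent.LE.CL Pool.Agent.LE.IR

/-- the potential on the torus -/
theorem ti_rep {d M : ℕ} [NeZero M] {b y : Site d} {R : ℕ} (hM : 2 * R + 1 ≤ M)
    (hy : y ∈ box b R) : b + rep (ti M b y) = y := by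
  rw [mem_box, sd_le_iff] at hy
  funext i
  have h1 := hy i
  have h2 : (ti M b y i).valMinAbs = y i - b i := by
    rw [ZMod.valMinAbs_spec]
    refine ⟨rfl, ?_, ?_⟩ <;> rw [abs_le] at h1 <;> omega
  simp only [Pi.add_apply, rep, h2]
  ring

end Pool.Agent.LE.QD.H54
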