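import Pool.Agent.Helper54_LQD.CPXb

/-!
# CPX: the coefficient
-/

set_option autoImplicit false

open MeasureTheory ProbabilityTheory Function Filter

open scoped ENNReal BigOperators Topology NNReal

noncomputable section

namespace Pool.Agent.LE.QD.H54

/-- the coefficient of the mass bound -/
theorem coef {d m N₀ L : ℕ} {l K₂ K' : ℝ} (hd : 3 ≤ d) (hl : 3 ≤ l) (hK₂ : 1 ≤ K₂) (hK' : 1 ≤ K')
    (hm1 : Real.exp (4 / 61 * l) ≤ m) (hm2 : (m : ℝ) ≤ 2 * Real.exp (4 / 61 * l))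
    (hN : (N₀ : ℝ) ≤ Real.exp (d / 31 * l)) (hL : (L : ℝ) ≤ 2 * K' * Real.exp (2 * l)) :
    K₂ * Real.exp (-(1 / 15 * l)) * (m + ((2 * N₀ : ℕ) : ℝ) * (Real.exp (-(2 * l)) * L) ^ d *
      (m : ℝ) ^ (1 - (d : ℝ) / 2)) + 2 * Real.exp (-(1 / 31 * l)) ≤
      (K₂ * (2 + 2 * (2 * K') ^ d) + 2) * Real.exp (-(1 / 915 * l)) := by
  have hd0 : (3 : ℝ) ≤ d := by exact_mod_cast hd
  have h1 : (Real.exp (-(2 * l)) * L) ^ d ≤ (2 * K') ^ d := by
    have h2 : Real.exp (-(2 * l)) * L ≤ 2 * K' := by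
      calc Real.exp (-(2 * l)) * L ≤ Real.exp (-(2 * l)) * (2 * K' * Real.exp (2 * l)) := by gcongr
        _ = 2 * K' * (Real.exp (-(2 * l)) * Real.exp (2 * l)) := by ring
        _ = 2 * K' := by rw [← Real.exp_add]; simp
    gcongr
  have h3 : (m : ℝ) ^ (1 - (d : ℝ) / 2) ≤ Real.exp (4 / 61 * l * (1 - d / 2)) := by
    calc (m : ℝ) ^ (1 - (d : ℝ) / 2) ≤ (Real.exp (4 / 61 * l)) ^ (1 - (d : ℝ) / 2) :=
          Real.rpow_le_rpow_of_nonpos (Real.exp_pos _) hm1 (by linarith)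
      _ = Real.exp (4 / 61 * l * (1 - d / 2)) := by rw [← Real.exp_mul]
  have h4 : ((2 * N₀ : ℕ) : ℝ) * (Real.exp (-(2 * l)) * L) ^ d * (m : ℝ) ^ (1 - (d : ℝ) / 2) ≤
      2 * (2 * K') ^ d * Real.exp (4 / 61 * l) := by
    have h5 : ((2 * N₀ : ℕ) : ℝ) ≤ 2 * Real.exp (d / 31 * l) := by
      push_cast
      linarith
    calc ((2 * N₀ : ℕ) : ℝ) * (Real.exp (-(2 * l)) * L) ^ d * (m : ℝ) ^ (1 - (d : ℝ) / 2) ≤
          2 * Real.exp (d / 31 * l) * (2 * K') ^ d * Real.exp (4 / 61 * l * (1 - d / 2)) := by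
          gcongr
      _ = 2 * (2 * K') ^ d * Real.exp (d / 31 * l + 4 / 61 * l * (1 - d / 2)) := by
          rw [Real.exp_add]
          ring
      _ ≤ 2 * (2 * K') ^ d * Real.exp (4 / 61 * l) := by
          gcongr
          have h6 : 0 ≤ (d : ℝ) * l := by positivity
          nlinarith
  have h7 : K₂ * Real.exp (-(1 / 15 * l)) * (m + ((2 * N₀ : ℕ) : ℝ) *
      (Real.exp (-(2 * l)) * L) ^ d * (m : ℝ) ^ (1 - (d : ℝ) / 2)) ≤
      K₂ * (2 + 2 * (2 * K') ^ d) * Real.exp (-(1 / 915 * l)) := by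
    calc K₂ * Real.exp (-(1 / 15 * l)) * (m + ((2 * N₀ : ℕ) : ℝ) *
          (Real.exp (-(2 * l)) * L) ^ d * (m : ℝ) ^ (1 - (d : ℝ) / 2)) ≤
          K₂ * Real.exp (-(1 / 15 * l)) * (2 * Real.exp (4 / 61 * l) +
            2 * (2 * K') ^ d * Real.exp (4 / 61 * l)) := by gcongr
      _ = K₂ * (2 + 2 * (2 * K') ^ d) * Real.exp (-(1 / 15 * l) + 4 / 61 * l) := by
          rw [Real.exp_add]
          ring
      _ = K₂ * (2 + 2 * (2 * K') ^ d) * Real.exp (-(1 / 915 * l)) := by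
          congr 2
          ring
  have h8 : 2 * Real.exp (-(1 / 31 * l)) ≤ 2 * Real.exp (-(1 / 915 * l)) := by
    gcongr
    norm_num
  linarith

/-- the final contradiction -/
theorem fin_c {d n₁ L : ℕ} {l K₁ K₃ K' Ce ε c D : ℝ} (hl : 3 ≤ l)
    (hK₁ : 1 ≤ K₁) (hK₃ : 1 ≤ K₃) (hK' : 1 ≤ K') (hCe : 1 ≤ Ce)
    (hε : ε ≤ Ce * Real.exp (-(1 / 915 * l)))
    (hn : ((K₁ * Real.exp (-(2 * l)) * l ^ 4) ^ d)⁻¹ ≤ n₁)
    (hL : (L : ℝ) ≤ 2 * K' * Real.exp (2 * l)) (hD : D = K₃ * Ce * (2 * K' * K₁) ^ d)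
    (hD2 : D * l ^ (4 * d) * Real.exp (-(1 / 915 * l)) + D * Real.exp (-l) < c) :
    K₃ * (ε * (L : ℝ) ^ d / n₁ + Real.exp (-(31 / 15 * l))) < c := by
  have hx : 0 < (K₁ * Real.exp (-(2 * l)) * l ^ 4) ^ d := by positivity
  have hn0 : (0 : ℝ) < n₁ := lt_of_lt_of_le (by positivity) hn
  have h1 : (n₁ : ℝ)⁻¹ ≤ (K₁ * Real.exp (-(2 * l)) * l ^ 4) ^ d := by
    rw [inv_le_comm₀ hn0 hx]
    exact hn
  have h2 : (L : ℝ) ^ d / n₁ ≤ (2 * K' * K₁) ^ d * l ^ (4 * d) := by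
    calc (L : ℝ) ^ d / n₁ = (L : ℝ) ^ d * (n₁ : ℝ)⁻¹ := div_eq_mul_inv _ _
      _ ≤ (2 * K' * Real.exp (2 * l)) ^ d * (K₁ * Real.exp (-(2 * l)) * l ^ 4) ^ d := by gcongr
      _ = (2 * K' * K₁ * (Real.exp (2 * l) * Real.exp (-(2 * l))) * l ^ 4) ^ d := by
          rw [← mul_pow]
          ring
      _ = (2 * K' * K₁) ^ d * l ^ (4 * d) := by
          rw [← Real.exp_add]
          simp only [add_neg_cancel, Real.exp_zero, mul_one]
          rw [mul_pow, ← pow_mul]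
  have h3 : ε * (L : ℝ) ^ d / n₁ ≤
      Ce * Real.exp (-(1 / 915 * l)) * ((2 * K' * K₁) ^ d * l ^ (4 * d)) := by
    rw [mul_div_assoc]
    exact mul_le_mul hε h2 (by positivity) (by positivity)
  have h4 : Real.exp (-(31 / 15 * l)) ≤ Real.exp (-l) := Real.exp_le_exp.2 (by linarith)
  have h5 : K₃ ≤ D := by
    rw [hD]
    have h6 : 1 ≤ Ce * (2 * K' * K₁) ^ d := by
      have h7 : 1 ≤ (2 * K' * K₁) ^ d := by
        apply one_le_pow₀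
        nlinarith
      nlinarith
    calc K₃ = K₃ * 1 := (mul_one _).symm
      _ ≤ K₃ * (Ce * (2 * K' * K₁) ^ d) := by gcongr
      _ = K₃ * Ce * (2 * K' * K₁) ^ d := by ring
  calc K₃ * (ε * (L : ℝ) ^ d / n₁ + Real.exp (-(31 / 15 * l))) ≤
        K₃ * (Ce * Real.exp (-(1 / 915 * l)) * ((2 * K' * K₁) ^ d * l ^ (4 * d)) +
          Real.exp (-l)) := by gcongr
    _ = D * l ^ (4 * d) * Real.exp (-(1 / 915 * l)) + K₃ * Real.exp (-l) := by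
        rw [hD]
        ring
    _ ≤ D * l ^ (4 * d) * Real.exp (-(1 / 915 * l)) + D * Real.exp (-l) := by gcongr
    _ < c := hD2

end Pool.Agent.LE.QD.H54
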